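import Pool.Agent.helper8.GD.Spec

/-!
# Project GD, module F1: lower bound of the total weight for almost all even `N`
-/

set_option autoImplicit false
set_option linter.all false

namespace GD

open Finset ArithmeticFunction Filter
open Pool.Agent.helper74.TG (ee gb)

theorem F1_dv {n : ℕ} (D : Finset ℕ) (hD : ∀ l ∈ D, l.Prime) :
    dv (pr D) n ↔ ∀ l ∈ D, dv l n := by
  induction D using Finset.induction_on with
  | empty =>
    simp only [pr, Finset.prod_empty, Finset.notMem_empty, IsEmpty.forall_iff, implies_true,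
      iff_true]
    exact Nat.modEq_one
  | insert l D hl ih =>
    have ih' := ih fun k hk => hD k (Finset.mem_insert_of_mem hk)
    have hp : pr (insert l D) = l * pr D := by
      unfold pr
      exact Finset.prod_insert hl
    have hc : Nat.Coprime l (pr D) := by
      unfold pr
      refine Nat.Coprime.prod_right fun k hk => ?_
      refine (Nat.coprime_primes (hD l (Finset.mem_insert_self _ _))
        (hD k (Finset.mem_insert_of_mem hk))).2 ?_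
      rintro rfl
      exact hl hk
    rw [hp]
    constructor
    · intro h
      have h2 := (Nat.modEq_and_modEq_iff_modEq_mul hc).2 h
      intro k hk
      rcases Finset.mem_insert.1 hk with rfl | hk
      · exact h2.1
      · exact ih'.1 h2.2 k hk
    · intro h
      exact (Nat.modEq_and_modEq_iff_modEq_mul hc).1
        ⟨h l (Finset.mem_insert_self _ _), ih'.2 fun k hk => h k (Finset.mem_insert_of_mem hk)⟩

theorem F1_Fv (Q : Finset ℕ) (hQ : ∀ l ∈ Q, l.Prime) (ξ : Finset ℕ → ℝ) (n : ℕ) :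
    Fv Q ξ n = ∑ D ∈ (At Q n).powerset, ξ D := by
  unfold Fv
  refine Finset.sum_congr ?_ fun _ _ => rfl
  ext D
  simp only [Finset.mem_filter, Finset.mem_powerset]
  constructor
  · rintro ⟨h1, h2⟩
    intro l hl
    have h3 := (F1_dv D fun k hk => hQ k (h1 hk)).1 h2 l hl
    exact Finset.mem_filter.2 ⟨h1 hl, h3⟩
  · intro h
    have h1 : D ⊆ Q := fun l hl => (Finset.mem_filter.1 (h hl)).1
    exact ⟨h1, (F1_dv D fun k hk => hQ k (h1 hk)).2 fun l hl => (Finset.mem_filter.1 (h hl)).2⟩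

theorem F1_Qs {w : ℕ} {z : ℝ} {l : ℕ} (h : l ∈ Qs w z) :
    l.Prime ∧ w < l ∧ (l % 8 = 1 ∨ l % 8 = 7) ∧ (l : ℝ) ≤ z ∧ 7 ≤ l := by
  unfold Qs at h
  obtain ⟨h1, h2, h3, h4⟩ := Finset.mem_filter.1 h
  have h5 := (Finset.mem_Icc.1 h1).2
  refine ⟨h2, h3, h4, (Nat.le_floor_iff' (by have := h2.pos; omega)).1 h5, ?_⟩
  have := h2.two_le
  omega

theorem F1_vv {υ T δ : ℝ} {X C l : ℕ} (hυ : 0 < υ) (hT : 0 ≤ T) (hX : 1 < Real.log X)
    (hl : l ∈ Qs (wX X C) ((X : ℝ) ^ υ)) : |vv υ T δ X l| ≤ T + 1 ∧ (l : ℝ) ≤ (X : ℝ) ^ υ := by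
  obtain ⟨h1, h2, h3, h4, h5⟩ := F1_Qs hl
  refine ⟨?_, h4⟩
  have hl1 : (1 : ℝ) ≤ l := by exact_mod_cast h1.one_le
  have hX0 : 0 < (X : ℝ) := by
    by_contra h
    have : (X : ℝ) = 0 := le_antisymm (not_lt.1 h) (Nat.cast_nonneg X)
    rw [this] at hX
    simp at hX
    linarith
  have h6 : Real.log l ≤ υ * Real.log X := by
    rw [← Real.log_rpow hX0]
    exact Real.log_le_log (by linarith) h4
  have h7 : 0 ≤ Real.log l := Real.log_nonneg hl1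
  have h8 : 0 < υ * Real.log X := mul_pos hυ (by linarith)
  have h9 : Real.log l / (υ * Real.log X) ≤ 1 := (div_le_one h8).2 h6
  have h10 : 0 ≤ Real.log l / (υ * Real.log X) := div_nonneg h7 h8.le
  unfold vv
  split_ifs <;> rw [abs_le] <;> constructor <;> linarith

theorem F1_Cf {Q : Finset ℕ} {ζ : Finset ℕ → ℝ} {K K' : ℕ} {G G' R R' : ℝ} (h : Cf Q ζ K G R)
    (hK : K ≤ K') (hG0 : 0 ≤ G) (hG : G ≤ G') (hR : R ≤ R') : Cf Q ζ K' G' R' := by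
  intro D hD
  obtain ⟨h1, h2⟩ := h D hD
  refine ⟨h1.trans ?_, fun h3 => (h2 h3).trans hR⟩
  have h4 : (K : ℝ) ^ #D ≤ (K' : ℝ) ^ #D := pow_le_pow_left₀ (Nat.cast_nonneg K) (by exact_mod_cast hK) _
  exact mul_le_mul h4 hG hG0 (by positivity)

/-- Selberg coefficients with all the properties needed. -/
theorem F1_SL (hSL : SL_stmt) {ρ υ T δ κ θ : ℝ} {X C : ℕ} (hρ : 0 < ρ) (hυ : 0 < υ) (hT : 0 ≤ T)
    (hθ : 2 * ρ + υ ≤ θ) (hX : 1 < Real.log X)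
    (hG : Gs (Qs (wX X C) ((X : ℝ) ^ υ)) ((X : ℝ) ^ ρ) ^ 2 * (T + 1) ≤ Real.log X ^ 36)
    (hN2 : ∑ l ∈ Qs (wX X C) ((X : ℝ) ^ υ), vv υ T δ X l * (2 / (l : ℝ)) *
      (Gs ((Qs (wX X C) ((X : ℝ) ^ υ)).erase l) ((X : ℝ) ^ ρ) -
        Gs ((Qs (wX X C) ((X : ℝ) ^ υ)).erase l) ((X : ℝ) ^ ρ / l)) ≤
      κ * Gs (Qs (wX X C) ((X : ℝ) ^ υ)) ((X : ℝ) ^ ρ)) :
    ∃ ζ₀ ζ₁ : Finset ℕ → ℝ,
      Cf (Qs (wX X C) ((X : ℝ) ^ υ)) ζ₀ 36 (Real.log X ^ 36) ((X : ℝ) ^ θ) ∧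
      Cf (Qs (wX X C) ((X : ℝ) ^ υ)) ζ₁ 36 (Real.log X ^ 36) ((X : ℝ) ^ θ) ∧
      a0 X C ρ υ = (fun n => vonMangoldt n * sh (wX X C) n * Fv (Qs (wX X C) ((X : ℝ) ^ υ)) ζ₀ n) ∧
      a1 X C ρ υ T δ =
        (fun n => vonMangoldt n * sh (wX X C) n * Fv (Qs (wX X C) ((X : ℝ) ^ υ)) ζ₁ n) ∧
      Ev (Qs (wX X C) ((X : ℝ) ^ υ)) ζ₀ = Gs (Qs (wX X C) ((X : ℝ) ^ υ)) ((X : ℝ) ^ ρ) ∧
      Ev (Qs (wX X C) ((X : ℝ) ^ υ)) ζ₁ ≤ κ * Gs (Qs (wX X C) ((X : ℝ) ^ υ)) ((X : ℝ) ^ ρ) := by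
  set Q := Qs (wX X C) ((X : ℝ) ^ υ) with hQ
  have hX0 : 0 < (X : ℝ) := by
    by_contra h
    have : (X : ℝ) = 0 := le_antisymm (not_lt.1 h) (Nat.cast_nonneg X)
    rw [this] at hX
    simp at hX
    linarith
  have hX1 : 1 ≤ (X : ℝ) := by
    by_contra h
    have := Real.log_nonpos hX0.le (not_le.1 h).le
    linarith
  have hR1 : 1 ≤ (X : ℝ) ^ ρ := Real.one_le_rpow hX1 hρ.le
  have hy1 : 1 ≤ (X : ℝ) ^ υ := Real.one_le_rpow hX1 hυ.le
  obtain ⟨ζ₀, ζ₁, h1, h2, h3, h4, h5, h6⟩ := hSL Q ((X : ℝ) ^ ρ) ((X : ℝ) ^ υ) (T + 1)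
    (vv υ T δ X) (fun l hl => ⟨(F1_Qs hl).1, (F1_Qs hl).2.2.2.2⟩) hR1 hy1 (by linarith)
    (fun l hl => F1_vv hυ hT hX hl)
  have hp : ∀ l ∈ Q, l.Prime := fun l hl => (F1_Qs hl).1
  have hsq : 0 ≤ Gs Q ((X : ℝ) ^ ρ) ^ 2 := sq_nonneg _
  have hR2 : ((X : ℝ) ^ ρ) ^ 2 = (X : ℝ) ^ (2 * ρ) := by
    rw [← Real.rpow_natCast, ← Real.rpow_mul hX0.le]
    congr 1
    push_cast
    ring
  refine ⟨ζ₀, ζ₁, ?_, ?_, ?_, ?_, h5, ?_⟩
  · refine F1_Cf h1 (by norm_num) hsq ?_ ?_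
    · refine le_trans ?_ hG
      nlinarith
    · rw [hR2]
      exact Real.rpow_le_rpow_of_exponent_le hX1 (by linarith)
  · refine F1_Cf h2 le_rfl (mul_nonneg hsq (by linarith)) hG ?_
    rw [hR2, ← Real.rpow_add hX0]
    exact Real.rpow_le_rpow_of_exponent_le hX1 hθ
  · funext n
    unfold a0
    rw [F1_Fv Q hp ζ₀ n, h3 (At Q n) (Finset.filter_subset _ _)]
  · funext n
    unfold a1 a0
    rw [F1_Fv Q hp ζ₁ n, h4 (At Q n) (Finset.filter_subset _ _)]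
    ring
  · rw [h6]
    exact hN2

/-- The final inequality. -/
theorem F1_fin {P g1 g2 e1 e2 κ₁ κ₂ T₁' T₂' c00 c10 c01 ε M c : ℝ} (hg1 : 1 ≤ g1) (hg2 : 1 ≤ g2)
    (hT1 : 3 ≤ T₁') (hT2 : 3 ≤ T₂') (he1 : e1 ≤ κ₁ * g1) (he2 : e2 ≤ κ₂ * g2)
    (hκ : κ₁ / T₁' + κ₂ / T₂' ≤ 19 / 20) (hP : 40 * c * M ≤ P) (hc : 0 < c) (hM : 0 ≤ M)
    (hε : 2 * ε ≤ c * M) (hε0 : 0 ≤ ε)
    (h00 : |c00 - P * g1 * g2| ≤ ε) (h10 : |c10 - P * e1 * g2| ≤ ε)
    (h01 : |c01 - P * g1 * e2| ≤ ε) :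
    c * M * g1 * g2 ≤ c00 - (1 / T₁') * c10 - (1 / T₂') * c01 := by
  have hP0 : 0 ≤ P := le_trans (by positivity) hP
  have a1 := (abs_le.1 h00).1
  have a2 := (abs_le.1 h10).2
  have a3 := (abs_le.1 h01).2
  have t1 : 1 / T₁' ≤ 1 / 3 := one_div_le_one_div_of_le (by norm_num) hT1
  have t2 : 1 / T₂' ≤ 1 / 3 := one_div_le_one_div_of_le (by norm_num) hT2
  have t1' : 0 < 1 / T₁' := by positivity
  have t2' : 0 < 1 / T₂' := by positivity
  have b1 : P * e1 * g2 ≤ κ₁ * (P * g1 * g2) := by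
    have := mul_le_mul_of_nonneg_left he1 (mul_nonneg hP0 (by linarith : (0 : ℝ) ≤ g2))
    nlinarith
  have b2 : P * g1 * e2 ≤ κ₂ * (P * g1 * g2) := by
    have := mul_le_mul_of_nonneg_left he2 (mul_nonneg hP0 (by linarith : (0 : ℝ) ≤ g1))
    nlinarith
  have c1 : (1 / T₁') * c10 ≤ (1 / T₁') * (κ₁ * (P * g1 * g2)) + ε / 3 := by
    have h1 : (1 / T₁') * c10 ≤ (1 / T₁') * (κ₁ * (P * g1 * g2) + ε) :=
      mul_le_mul_of_nonneg_left (by linarith) t1'.le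
    have h2 : (1 / T₁') * ε ≤ 1 / 3 * ε := mul_le_mul_of_nonneg_right t1 hε0
    nlinarith
  have c2 : (1 / T₂') * c01 ≤ (1 / T₂') * (κ₂ * (P * g1 * g2)) + ε / 3 := by
    have h1 : (1 / T₂') * c01 ≤ (1 / T₂') * (κ₂ * (P * g1 * g2) + ε) :=
      mul_le_mul_of_nonneg_left (by linarith) t2'.le
    have h2 : (1 / T₂') * ε ≤ 1 / 3 * ε := mul_le_mul_of_nonneg_right t2 hε0
    nlinarith
  have hPg : 0 ≤ P * g1 * g2 := by positivity
  have d1 : (1 / T₁') * (κ₁ * (P * g1 * g2)) + (1 / T₂') * (κ₂ * (P * g1 * g2)) ≤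
      19 / 20 * (P * g1 * g2) := by
    have h1 := mul_le_mul_of_nonneg_right hκ hPg
    calc (1 / T₁') * (κ₁ * (P * g1 * g2)) + (1 / T₂') * (κ₂ * (P * g1 * g2))
        = (κ₁ / T₁' + κ₂ / T₂') * (P * g1 * g2) := by ring
      _ ≤ _ := h1
  have hgg : 1 ≤ g1 * g2 := by nlinarith
  have e3 : 40 * c * M * (g1 * g2) ≤ P * (g1 * g2) :=
    mul_le_mul_of_nonneg_right hP (by linarith)
  have e4 : c * M ≤ c * M * (g1 * g2) := le_mul_of_one_le_right (by positivity) hgg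
  nlinarith

theorem F1_err {x l L c a : ℝ} (hx : 0 ≤ x) (hL : 0 < L) (hl : 0 < l) (h : a * l ≤ c * L) :
    a * (x / L) ≤ c * (x / l) := by
  rw [← mul_div_assoc, ← mul_div_assoc, div_le_div_iff₀ hL hl]
  nlinarith

theorem F1 (hSL : SL_stmt) (hAT : AT_stmt) (hN2 : N2_stmt) (hNUM : NUM_stmt) (hLD : LD_stmt)
    (hG3 : G3_stmt) : F1_stmt := by
  obtain ⟨cL, hcL, hLD⟩ := hLD
  obtain ⟨CG, hCG, hG3⟩ := hG3
  have hT1 : (3 : ℝ) ≤ T₁ := by unfold T₁ υ₁; norm_num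
  have hT2 : (3 : ℝ) ≤ T₂ := by unfold T₂ υ₂; norm_num
  have hρ1 : 0 < ρ₁ := by unfold ρ₁; norm_num
  have hρ2 : 0 < ρ₂ := by unfold ρ₂; norm_num
  have hυ1 : 0 < υ₁ := by unfold υ₁; norm_num
  have hυ2 : 0 < υ₂ := by unfold υ₂; norm_num
  obtain ⟨δ₁, hδ₁, hN21⟩ := hN2 ρ₁ υ₁ T₁ (1 / 100) hρ1 (by unfold ρ₁ υ₁; norm_num)
    (by unfold υ₁; norm_num) (by linarith) (by norm_num)
  obtain ⟨δ₂, hδ₂, hN22⟩ := hN2 ρ₂ υ₂ T₂ (1 / 100) hρ2 (by unfold ρ₂ υ₂; norm_num)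
    (by unfold υ₂; norm_num) (by linarith) (by norm_num)
  refine ⟨cL / 80, min (min δ₁ δ₂) (1 / 5), by positivity, by positivity, min_le_right _ _, ?_⟩
  intro A
  set δ := min (min δ₁ δ₂) (1 / 5) with hδdef
  have hδ0 : 0 < δ := by positivity
  have hδ1 : δ ≤ δ₁ := (min_le_left _ _).trans (min_le_left _ _)
  have hδ2 : δ ≤ δ₂ := (min_le_left _ _).trans (min_le_right _ _)
  obtain ⟨C₁, hAT⟩ := hAT (199 / 600) (99 / 200) (by norm_num) (by norm_num) (by norm_num)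
    (by norm_num) (by norm_num) 36 (A + 3)
  obtain ⟨X₁, hAT⟩ := hAT (max C₁ 1) (le_max_left _ _)
  set C := max C₁ 1 with hCdef
  have hC : 0 < C := lt_of_lt_of_le one_pos (le_max_right _ _)
  obtain ⟨X₂, hN21⟩ := hN21 δ hδ0 hδ1 C hC
  obtain ⟨X₃, hN22⟩ := hN22 δ hδ0 hδ2 C hC
  -- large X
  have hlog : Tendsto (fun X : ℕ => Real.log X) atTop atTop :=
    Real.tendsto_log_atTop.comp tendsto_natCast_atTop_atTop
  have E1 : ∀ᶠ X : ℕ in atTop, 3 ≤ Real.log X := hlog.eventually_ge_atTop 3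
  have E2 : ∀ υ : ℝ, 0 < υ → ∀ᶠ X : ℕ in atTop, Real.log X ^ C ≤ (X : ℝ) ^ υ := by
    intro υ hυ
    have h1 := (isLittleO_log_rpow_rpow_atTop (C : ℝ) hυ).bound (one_pos)
    have h2 := tendsto_natCast_atTop_atTop (R := ℝ) |>.eventually h1
    filter_upwards [h2, E1] with X hX hX3
    rw [Real.norm_eq_abs, Real.norm_eq_abs, one_mul, Real.rpow_natCast] at hX
    have h3 : 0 ≤ (X : ℝ) ^ υ := by positivity
    rw [abs_of_nonneg h3] at hX
    exact (le_abs_self _).trans hX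
  have E3 : ∀ T : ℝ, 0 ≤ T → ∀ᶠ X : ℕ in atTop,
      (CG / Real.log 2 * Real.log X) ^ 2 * (T + 1) ≤ Real.log X ^ 36 := by
    intro T hT
    have h1 := hlog.eventually_ge_atTop ((CG / Real.log 2) ^ 2 * (T + 1))
    filter_upwards [h1, E1] with X h1 h2
    have h3 : Real.log X ^ 3 ≤ Real.log X ^ 36 := pow_le_pow_right₀ (by linarith) (by norm_num)
    refine le_trans ?_ h3
    calc (CG / Real.log 2 * Real.log X) ^ 2 * (T + 1)
        = ((CG / Real.log 2) ^ 2 * (T + 1)) * Real.log X ^ 2 := by ring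
      _ ≤ Real.log X * Real.log X ^ 2 := mul_le_mul_of_nonneg_right h1 (by positivity)
      _ = Real.log X ^ 3 := by ring
  have E4 := hlog.eventually_ge_atTop (2 * (C : ℝ) ^ 2 / (cL / 80))
  obtain ⟨X₀, hX₀⟩ := eventually_atTop.1 (((((E1.and (E2 υ₁ hυ1)).and (E2 υ₂ hυ2)).and
    (E3 T₁ (by linarith))).and (E3 T₂ (by linarith))).and E4)
  refine ⟨C, max (max X₀ X₁) (max X₂ X₃), hC, ?_⟩
  intro X hX
  have hXX₀ : X₀ ≤ X := le_trans (le_trans (le_max_left _ _) (le_max_left _ _)) hX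
  have hXX₁ : X₁ ≤ X := le_trans (le_trans (le_max_right _ _) (le_max_left _ _)) hX
  have hXX₂ : X₂ ≤ X := le_trans (le_trans (le_max_left _ _) (le_max_right _ _)) hX
  have hXX₃ : X₃ ≤ X := le_trans (le_trans (le_max_right _ _) (le_max_right _ _)) hX
  obtain ⟨⟨⟨⟨⟨hL3, hw1⟩, hw2⟩, hg1⟩, hg2⟩, hbig⟩ := hX₀ X hXX₀
  have hL0 : 0 < Real.log X := by linarith
  have hX0 : 0 < (X : ℝ) := by
    by_contra h
    have : (X : ℝ) = 0 := le_antisymm (not_lt.1 h) (Nat.cast_nonneg X)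
    rw [this] at hL3
    simp at hL3
    linarith
  have hX1 : 1 ≤ (X : ℝ) := by
    by_contra h
    have := Real.log_nonpos hX0.le (not_le.1 h).le
    linarith
  -- the size of w
  have hLC : (2 : ℝ) ≤ Real.log X ^ C := by
    calc (2 : ℝ) ≤ Real.log X := by linarith
      _ = Real.log X ^ 1 := (pow_one _).symm
      _ ≤ Real.log X ^ C := pow_le_pow_right₀ (by linarith) hC
  have hw : 2 ≤ wX X C := Nat.le_floor (by exact_mod_cast hLC)
  have hwle : (wX X C : ℝ) ≤ Real.log X ^ C := Nat.floor_le (by positivity)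
  have hw0 : (2 : ℝ) ≤ wX X C := by exact_mod_cast hw
  have hlw0 : Real.log 2 ≤ Real.log (wX X C) := Real.log_le_log (by norm_num) hw0
  have hlog2 : 0 < Real.log 2 := Real.log_pos (by norm_num)
  have hlw : Real.log (wX X C) ≤ C * Real.log X := by
    calc Real.log (wX X C) ≤ Real.log (Real.log X ^ C) := Real.log_le_log (by linarith) hwle
      _ = C * Real.log (Real.log X) := Real.log_pow _ _
      _ ≤ C * Real.log X := by
        refine mul_le_mul_of_nonneg_left ?_ (Nat.cast_nonneg C)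
        have := Real.log_le_sub_one_of_pos hL0
        linarith
  have hG31 := hG3 (wX X C) ((X : ℝ) ^ υ₁) ((X : ℝ) ^ ρ₁) hw (hwle.trans hw1)
    (Real.one_le_rpow hX1 hρ1.le)
  have hG32 := hG3 (wX X C) ((X : ℝ) ^ υ₂) ((X : ℝ) ^ ρ₂) hw (hwle.trans hw2)
    (Real.one_le_rpow hX1 hρ2.le)
  have hup : ∀ υ : ℝ, 0 < υ → υ ≤ 1 →
      CG * Real.log ((X : ℝ) ^ υ) / Real.log (wX X C) ≤ CG / Real.log 2 * Real.log X := by
    intro υ hυ hυ1
    rw [Real.log_rpow hX0]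
    have h1 : CG * (υ * Real.log X) ≤ CG * Real.log X :=
      mul_le_mul_of_nonneg_left (by nlinarith) hCG.le
    calc CG * (υ * Real.log X) / Real.log (wX X C) ≤ CG * Real.log X / Real.log 2 :=
          div_le_div₀ (by positivity) h1 hlog2 hlw0
      _ = _ := by ring
  have hGG1 : Gs (Qs (wX X C) ((X : ℝ) ^ υ₁)) ((X : ℝ) ^ ρ₁) ^ 2 * (T₁ + 1) ≤
      Real.log X ^ 36 := by
    refine le_trans (mul_le_mul_of_nonneg_right ?_ (by linarith)) hg1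
    refine pow_le_pow_left₀ (by linarith [hG31.1]) ?_ 2
    exact hG31.2.trans (hup υ₁ hυ1 (by unfold υ₁; norm_num))
  have hGG2 : Gs (Qs (wX X C) ((X : ℝ) ^ υ₂)) ((X : ℝ) ^ ρ₂) ^ 2 * (T₂ + 1) ≤
      Real.log X ^ 36 := by
    refine le_trans (mul_le_mul_of_nonneg_right ?_ (by linarith)) hg2
    refine pow_le_pow_left₀ (by linarith [hG32.1]) ?_ 2
    exact hG32.2.trans (hup υ₂ hυ2 (by unfold υ₂; norm_num))
  obtain ⟨ζ₀, ζ₁, z1, z2, z3, z4, z5, z6⟩ := F1_SL hSL (θ := 199 / 600) hρ1 hυ1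
    (by linarith : 0 ≤ T₁) (by unfold ρ₁ υ₁; norm_num) (by linarith : 1 < Real.log X) hGG1
    (hN21 X hXX₂)
  obtain ⟨η₀, η₁, y1, y2, y3, y4, y5, y6⟩ := F1_SL hSL (θ := 99 / 200) hρ2 hυ2
    (by linarith : 0 ≤ T₂) (by unfold ρ₂ υ₂; norm_num) (by linarith : 1 < Real.log X) hGG2
    (hN22 X hXX₃)
  have hQ1 : ∀ l ∈ Qs (wX X C) ((X : ℝ) ^ υ₁), l.Prime ∧ wX X C < l ∧ (l % 8 = 1 ∨ l % 8 = 7) :=
    fun l hl => ⟨(F1_Qs hl).1, (F1_Qs hl).2.1, (F1_Qs hl).2.2.1⟩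
  have hQ2 : ∀ l ∈ Qs (wX X C) ((X : ℝ) ^ υ₂), l.Prime ∧ wX X C < l ∧ (l % 8 = 1 ∨ l % 8 = 7) :=
    fun l hl => ⟨(F1_Qs hl).1, (F1_Qs hl).2.1, (F1_Qs hl).2.2.1⟩
  have A00 := hAT X hXX₁ _ _ hQ1 hQ2 ζ₀ η₀ z1 y1
  have A10 := hAT X hXX₁ _ _ hQ1 hQ2 ζ₁ η₀ z2 y1
  have A01 := hAT X hXX₁ _ _ hQ1 hQ2 ζ₀ η₁ z1 y2
  rw [← z3, ← y3] at A00
  rw [← z4, ← y3] at A10
  rw [← z3, ← y4] at A01
  refine le_trans (b := ((#((Icc 1 X).filter fun N => (X : ℝ) / Real.log X ^ (A + 3) <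
      |cv N (a0 X C ρ₁ υ₁) (a0 X C ρ₂ υ₂) - N * VN (wX X C) N *
        Ev (Qs (wX X C) ((X : ℝ) ^ υ₁)) ζ₀ * Ev (Qs (wX X C) ((X : ℝ) ^ υ₂)) η₀|) +
    #((Icc 1 X).filter fun N => (X : ℝ) / Real.log X ^ (A + 3) <
      |cv N (a1 X C ρ₁ υ₁ T₁ δ) (a0 X C ρ₂ υ₂) - N * VN (wX X C) N *
        Ev (Qs (wX X C) ((X : ℝ) ^ υ₁)) ζ₁ * Ev (Qs (wX X C) ((X : ℝ) ^ υ₂)) η₀|) +
    #((Icc 1 X).filter fun N => (X : ℝ) / Real.log X ^ (A + 3) <
      |cv N (a0 X C ρ₁ υ₁) (a1 X C ρ₂ υ₂ T₂ δ) - N * VN (wX X C) N *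
        Ev (Qs (wX X C) ((X : ℝ) ^ υ₁)) ζ₀ * Ev (Qs (wX X C) ((X : ℝ) ^ υ₂)) η₁|) : ℕ) : ℝ)) ?_ ?_
  · norm_cast
    refine le_trans (Finset.card_le_card ?_) ((Finset.card_union_le _ _).trans
      (Nat.add_le_add_right (Finset.card_union_le _ _) _))
    intro N hN
    rw [Finset.mem_filter] at hN
    obtain ⟨hNX, hNe, hN2X, hNW⟩ := hN
    by_contra hcon
    rw [Finset.mem_union, Finset.mem_union, Finset.mem_filter, Finset.mem_filter,
      Finset.mem_filter, not_or, not_or] at hcon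
    obtain ⟨⟨k1, k2⟩, k3⟩ := hcon
    have k1' := not_lt.1 fun h => k1 ⟨hNX, h⟩
    have k2' := not_lt.1 fun h => k2 ⟨hNX, h⟩
    have k3' := not_lt.1 fun h => k3 ⟨hNX, h⟩
    refine absurd hNW (not_lt.2 ?_)
    have hNr : (X : ℝ) / 2 ≤ N := by
      have : (X : ℝ) ≤ 2 * N := by exact_mod_cast hN2X
      linarith
    have hVN := hLD (wX X C) N hw hNe
    have hlwpos : 0 < Real.log (wX X C) := by linarith
    have key := F1_fin (P := N * VN (wX X C) N)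
      (g1 := Gs (Qs (wX X C) ((X : ℝ) ^ υ₁)) ((X : ℝ) ^ ρ₁))
      (g2 := Gs (Qs (wX X C) ((X : ℝ) ^ υ₂)) ((X : ℝ) ^ ρ₂))
      (e1 := Ev (Qs (wX X C) ((X : ℝ) ^ υ₁)) ζ₁) (e2 := Ev (Qs (wX X C) ((X : ℝ) ^ υ₂)) η₁)
      (κ₁ := Real.log (υ₁ / ρ₁) + ρ₁ / (2 * υ₁) + 1 / 100)
      (κ₂ := Real.log (υ₂ / ρ₂) + ρ₂ / (2 * υ₂) + 1 / 100)
      (T₁' := T₁) (T₂' := T₂) (c00 := cv N (a0 X C ρ₁ υ₁) (a0 X C ρ₂ υ₂))
      (c10 := cv N (a1 X C ρ₁ υ₁ T₁ δ) (a0 X C ρ₂ υ₂))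
      (c01 := cv N (a0 X C ρ₁ υ₁) (a1 X C ρ₂ υ₂ T₂ δ))
      (ε := X / Real.log X ^ (A + 3)) (M := X / Real.log (wX X C) ^ 2) (c := cL / 80)
      hG31.1 hG32.1 hT1 hT2 z6 y6 ?_ ?_ (by positivity) (by positivity) ?_ (by positivity)
      (by rw [← z5, ← y5]; exact k1') (by rw [← y5]; exact k2') (by rw [← z5]; exact k3')
    · unfold WW G1 G2
      refine le_trans (le_of_eq ?_) key
      ring
    · have h1 : (1 : ℝ) / 100 / T₁ ≤ 1 / 300 := by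
        rw [div_le_div_iff₀ (by linarith) (by norm_num)]
        linarith
      have h2 : (1 : ℝ) / 100 / T₂ ≤ 1 / 300 := by
        rw [div_le_div_iff₀ (by linarith) (by norm_num)]
        linarith
      have h3 : NUM_stmt := hNUM
      unfold NUM_stmt at h3
      rw [add_div, add_div _ (1 / 100 : ℝ) T₂]
      linarith
    · have h1 : (X : ℝ) / 2 * (cL / Real.log (wX X C) ^ 2) ≤ N * VN (wX X C) N :=
        mul_le_mul hNr hVN (by positivity) (by positivity)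
      refine le_trans (le_of_eq ?_) h1
      ring
    · -- the error is small
      have h1 : 2 * (C : ℝ) ^ 2 ≤ cL / 80 * Real.log X := by
        rw [div_le_iff₀ (by positivity)] at hbig
        linarith
      have h2 : Real.log (wX X C) ^ 2 ≤ (C : ℝ) ^ 2 * Real.log X ^ 2 := by
        calc Real.log (wX X C) ^ 2 ≤ (C * Real.log X) ^ 2 := pow_le_pow_left₀ hlwpos.le hlw 2
          _ = _ := by ring
      have h3 : 2 * Real.log (wX X C) ^ 2 ≤ cL / 80 * Real.log X ^ 3 := by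
        calc 2 * Real.log (wX X C) ^ 2 ≤ 2 * ((C : ℝ) ^ 2 * Real.log X ^ 2) := by linarith
          _ = (2 * (C : ℝ) ^ 2) * Real.log X ^ 2 := by ring
          _ ≤ (cL / 80 * Real.log X) * Real.log X ^ 2 :=
            mul_le_mul_of_nonneg_right h1 (by positivity)
          _ = _ := by ring
      have h4 : Real.log X ^ 3 ≤ Real.log X ^ (A + 3) := pow_le_pow_right₀ (by linarith) (by omega)
      have h5 : 2 * Real.log (wX X C) ^ 2 ≤ cL / 80 * Real.log X ^ (A + 3) :=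
        h3.trans (mul_le_mul_of_nonneg_left h4 (by positivity))
      have h6 : 0 < Real.log X ^ (A + 3) := by positivity
      have h7 : 0 < Real.log (wX X C) ^ 2 := by positivity
      exact F1_err hX0.le h6 h7 h5
  · push_cast
    have h1 : 3 * ((X : ℝ) / Real.log X ^ (A + 3)) ≤ X / Real.log X ^ A := by
      have h2 : 3 * Real.log X ^ A ≤ Real.log X ^ (A + 3) := by
        calc 3 * Real.log X ^ A ≤ Real.log X ^ 3 * Real.log X ^ A := by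
              refine mul_le_mul_of_nonneg_right ?_ (by positivity)
              calc (3 : ℝ) ≤ Real.log X := hL3
                _ = Real.log X ^ 1 := (pow_one _).symm
                _ ≤ Real.log X ^ 3 := pow_le_pow_right₀ (by linarith) (by norm_num)
          _ = _ := by ring
      have h3 := F1_err (x := (X : ℝ)) (c := 1) (a := 3) hX0.le
        (by positivity : 0 < Real.log X ^ (A + 3)) (by positivity : 0 < Real.log X ^ A)
        (by rw [one_mul]; exact h2)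
      rwa [one_mul] at h3
    refine (add_le_add (add_le_add A00 A10) A01).trans (le_trans (le_of_eq ?_) h1)
    ring

end GD
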